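import Pool.Agent.H0.Eclt.Main

set_option autoImplicit false
open MeasureTheory ProbabilityTheory InformationTheory

namespace Pool.Agent.Results.MP_e841a3_pr.EntropicRateFails

open Pool.Agent.H0.Eclt

/-- Q2 is false: there is no constant `C` with `D(S_n ‖ φ) ≤ (C/n) D(X_1 ‖ φ)` for all laws with
mean `0`, variance `1`, a density, and `E X_1^4 ≤ 4`.  Moreover, for every `n ≥ 128` there is such a
law (with finite relative entropy) for which `D(S_n ‖ φ) ≥ D(X_1 ‖ φ) / 64`: no decay at all. -/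
theorem result :
    (¬ ∃ C : ℝ, ∀ μ : Measure ℝ, Adm 4 μ → ∀ n : ℕ, 1 ≤ n →
        klDiv (lawS μ n) (gaussianReal 0 1) ≤ ENNReal.ofReal (C / n) * klDiv μ (gaussianReal 0 1)) ∧
    (∀ n : ℕ, 128 ≤ n → ∃ μ : Measure ℝ, Adm 4 μ ∧ klDiv μ (gaussianReal 0 1) ≠ ⊤ ∧
        0 < klDiv (lawS μ n) (gaussianReal 0 1) ∧
        klDiv μ (gaussianReal 0 1) ≤ 64 * klDiv (lawS μ n) (gaussianReal 0 1)) := by
  constructor
  · rintro ⟨C, hC⟩
    obtain ⟨m, hm⟩ := exists_nat_gt (64 * C)
    set n := m + 128 with hn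
    have hn128 : 128 ≤ n := by omega
    have hn1 : (0:ℝ) < n := by positivity
    have hmn : 64 * C < n := by
      rw [hn]; push_cast; linarith
    obtain ⟨μ, hA, h1, h2⟩ := main n hn128
    have h3 := hC μ hA n (by omega)
    have h4 := h2.trans (h3.trans (mul_le_mul_right h1 _))
    have hlt : ENNReal.ofReal (C / n) * ENNReal.ofReal (1 / n ^ 2) < ENNReal.ofReal (1 / (64 * n ^ 2)) := by
      by_cases hC0 : 0 ≤ C
      · rw [← ENNReal.ofReal_mul (by positivity)]
        rw [ENNReal.ofReal_lt_ofReal_iff (by positivity)]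
        have e : C / n * (1 / (n:ℝ) ^ 2) = (C / n) * (1 / n ^ 2) := rfl
        have : C / n < 1 / 64 := by
          rw [div_lt_div_iff₀ hn1 (by norm_num)]; linarith
        calc C / n * (1 / (n:ℝ) ^ 2) < 1 / 64 * (1 / (n:ℝ) ^ 2) :=
              mul_lt_mul_of_pos_right this (by positivity)
          _ = 1 / (64 * n ^ 2) := by field_simp
      · rw [ENNReal.ofReal_of_nonpos (by push Not at hC0; exact (div_neg_of_neg_of_pos hC0 hn1).le), zero_mul]
        exact ENNReal.ofReal_pos.2 (by positivity)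
    exact absurd h4 (not_le.2 hlt)
  · intro n hn
    have hn1 : (0:ℝ) < n := by
      have : 0 < n := by omega
      exact_mod_cast this
    obtain ⟨μ, hA, h1, h2⟩ := main n hn
    refine ⟨μ, hA, (h1.trans_lt ENNReal.ofReal_lt_top).ne, ?_, ?_⟩
    · exact lt_of_lt_of_le (ENNReal.ofReal_pos.2 (by positivity)) h2
    · refine h1.trans ?_
      refine le_trans (le_of_eq ?_) (mul_le_mul_right h2 64)
      rw [show (64 : ENNReal) = ENNReal.ofReal 64 by simp, ← ENNReal.ofReal_mul (by norm_num)]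
      congr 1
      field_simp

end Pool.Agent.Results.MP_e841a3_pr.EntropicRateFails
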